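import Mathlib

set_option autoImplicit false

/-! Near-uniform vectors, NU8: the choice of `p` in the middle case. -/

namespace Pool.Agent.TH941.NU

/-- the middle case -/
theorem mid {N B d x0 x2 : ℕ} (hN : 36 ≤ N) (hB : 4 * N ≤ B) (hx : x0 + x2 ≤ N)
    (h0 : √(4 * (N : ℝ)) / 3 + 5 ≤ x0) (h2 : √(4 * (N : ℝ)) / 3 + 5 ≤ x2)
    (hcrit : |√(4 * (N : ℝ)) * (2 * d + 3) - (4 * N * B + 2 * N + 2 * ((x2 : ℝ) - x0))| ≤
      2 * √(4 * (N : ℝ)) / 3 + 9 / 4) :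
    ∃ p : ℕ, p + 1 ≤ x0 ∧
      (d + 1) * (d + 2) + 2 * (p * B) ≤ 2 * ((B + 1) / 2 * x2) + N * (B * (B + 1)) ∧
      2 * ((B + 1) / 2 * x2) + N * (B * (B + 1)) ≤ (d + 1) * (d + 2) + 2 * ((p + 1) * B) ∧
      4 * ((N : ℝ) * B - p) + 2 * N + 2 * √(4 * (N : ℝ)) / 3 + 1 / 2 < √(4 * (N : ℝ)) * (2 * d + 3) ∧
      √(4 * (N : ℝ)) * (2 * d + 3) + 2 * √(4 * (N : ℝ)) / 3 + 9 / 2 <
        4 * ((N : ℝ) * B - (p + 1) + x2) + 2 * N := by
  have hN' : (36 : ℝ) ≤ N := by exact_mod_cast hN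
  have hB' : 4 * (N : ℝ) ≤ B := by exact_mod_cast hB
  have hx' : (x0 : ℝ) + x2 ≤ N := by exact_mod_cast hx
  have hs2 : √(4 * (N : ℝ)) ^ 2 = 4 * N := Real.sq_sqrt (by positivity)
  have hs12 : 12 ≤ √(4 * (N : ℝ)) := by
    apply Real.le_sqrt_of_sq_le
    linarith
  generalize √(4 * (N : ℝ)) = s at *
  have hsN : s ≤ N / 3 := by nlinarith
  obtain ⟨hc1, hc2⟩ := abs_le.1 hcrit
  obtain ⟨y, hy⟩ : ∃ y : ℝ, y = s * (2 * d + 3) - (4 * N * B + 2 * N) := ⟨_, rfl⟩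
  have hy1 : 2 * ((x2 : ℝ) - x0) - 2 * s / 3 - 9 / 4 ≤ y := by rw [hy]; linarith
  have hy2 : y ≤ 2 * ((x2 : ℝ) - x0) + 2 * s / 3 + 9 / 4 := by rw [hy]; linarith
  have hx0 : (0 : ℝ) ≤ x0 := Nat.cast_nonneg _
  have hx2 : (0 : ℝ) ≤ x2 := Nat.cast_nonneg _
  have hya : y ≤ 2.29 * N := by linarith
  have hyb : -(2.29 * N) ≤ y := by linarith
  obtain ⟨q, hq⟩ : ∃ q : ℕ, q = (B + 1) / 2 := ⟨_, rfl⟩
  rw [← hq]
  have hq1 : (B : ℝ) ≤ 2 * q := by exact_mod_cast (by omega : B ≤ 2 * q)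
  have hq2 : 2 * (q : ℝ) ≤ B + 1 := by exact_mod_cast (by omega : 2 * q ≤ B + 1)
  have hBpos : (0 : ℝ) < B := by linarith
  have hNpos : (0 : ℝ) < N := by linarith
  obtain ⟨C, hCdef⟩ : ∃ C : ℤ, C = 2 * ((q : ℤ) * x2) + N * (B * (B + 1)) - (d + 1) * (d + 2) :=
    ⟨_, rfl⟩
  have hC : 4 * (N : ℝ) * C = 8 * N * q * x2 - N ^ 2 - N * (2 * B + 1) * y - y ^ 2 / 4 + N := by
    rw [hCdef, hy]
    push_cast
    linear_combination ((2 * (d : ℝ) + 3) ^ 2 / 4) * hs2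
  have hU : (C : ℝ) ≤ B * x2 - B * y / 2 + 0.4 * B := by
    have h1 : 4 * (N : ℝ) * C ≤ 4 * N * (B * x2 - B * y / 2 + 0.4 * B) := by
      rw [hC]
      have e1 : 8 * (N : ℝ) * q * x2 ≤ 4 * N * (B + 1) * x2 := by
        have := mul_le_mul_of_nonneg_right hq2 (mul_nonneg hNpos.le hx2)
        linarith
      have e2 : (N : ℝ) * (4 * x2 - y + 1) ≤ N * (1.6 * B) := by
        apply mul_le_mul_of_nonneg_left _ hNpos.le
        linarith
      have e3 := sq_nonneg y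
      have e4 := sq_nonneg (N : ℝ)
      linarith
    exact le_of_mul_le_mul_left h1 (by positivity)
  have hL : B * x2 - B * y / 2 - 0.3 * B ≤ (C : ℝ) := by
    have h1 : 4 * (N : ℝ) * (B * x2 - B * y / 2 - 0.3 * B) ≤ 4 * N * C := by
      rw [hC]
      have e1 : 4 * (N : ℝ) * B * x2 ≤ 8 * N * q * x2 := by
        have := mul_le_mul_of_nonneg_right hq1 (mul_nonneg hNpos.le hx2)
        linarith
      have e2 : (N + y / 2) ^ 2 ≤ 1.2 * N * B := by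
        have f1 : (N + y / 2) ^ 2 ≤ (2.145 * (N : ℝ)) ^ 2 := by
          apply sq_le_sq'
          · linarith
          · linarith
        have f2 : (2.145 * (N : ℝ)) ^ 2 ≤ 1.2 * N * (4 * N) := by
          have := sq_nonneg (N : ℝ)
          linarith
        have f3 : 1.2 * (N : ℝ) * (4 * N) ≤ 1.2 * N * B :=
          mul_le_mul_of_nonneg_left hB' (by positivity)
        linarith
      linarith
    exact le_of_mul_le_mul_left h1 (by positivity)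
  have hC0r : (0 : ℝ) ≤ C := by
    refine le_trans ?_ hL
    have : 0 ≤ (B : ℝ) * (x2 - y / 2 - 0.3) := by
      apply mul_nonneg hBpos.le
      linarith
    linarith
  have hC0 : 0 ≤ C := by exact_mod_cast hC0r
  have hB2 : (0 : ℤ) < 2 * B := by
    have : 0 < B := by omega
    omega
  obtain ⟨p, hp⟩ : ∃ p : ℕ, (p : ℤ) = C / (2 * B) :=
    ⟨(C / (2 * B)).toNat, Int.toNat_of_nonneg (Int.ediv_nonneg hC0 hB2.le)⟩
  have hp1 : 2 * (B : ℤ) * p ≤ C := by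
    rw [hp]; exact Int.mul_ediv_self_le hB2.ne'
  have hp2 : C < 2 * (B : ℤ) * (p + 1) := by
    rw [hp]
    have := Int.lt_ediv_add_one_mul_self C hB2
    linarith
  have hp1r : 2 * (B : ℝ) * p ≤ C := by exact_mod_cast hp1
  have hp2r : (C : ℝ) < 2 * (B : ℝ) * (p + 1) := by exact_mod_cast hp2
  have hpa : 4 * (p : ℝ) ≤ 2 * x2 - y + 0.8 := by
    have h1 : (B : ℝ) * (4 * p) ≤ B * (2 * x2 - y + 0.8) := by linarith
    exact le_of_mul_le_mul_left h1 hBpos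
  have hpb : 2 * (x2 : ℝ) - y - 0.6 < 4 * (p + 1) := by
    have h1 : (B : ℝ) * (2 * x2 - y - 0.6) < B * (4 * (p + 1)) := by linarith
    exact lt_of_mul_lt_mul_left h1 hBpos.le
  refine ⟨p, ?_, ?_, ?_, ?_, ?_⟩
  · have : (p : ℝ) + 1 ≤ x0 := by linarith
    exact_mod_cast this
  · zify
    rw [hCdef] at hp1
    linarith
  · zify
    rw [hCdef] at hp2
    linarith
  · linarith
  · linarith

end Pool.Agent.TH941.NU
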